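import Pool.Agent.Y560.TF.GeS

/-!
Project TF: classes and labels over a point outside of a class.
-/

set_option autoImplicit false
set_option linter.unusedSectionVars false

namespace Pool.Agent.Y41.TF

open Pool.Agent.Y560.TF.Ge

section

variable {Γ X : Type} [Group Γ] [PartialOrder X] [MulAction Γ X] [Tr Γ X]

/-- If `IN Γ y s` fails on the orbit of `x`, comparable translates of `s` with the same label
over `y` have the same label over `x`. -/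
theorem sl_aux {y s x : X} (hx : ∀ γ : Γ, ¬ IN Γ y s (γ • x)) {a b : Γ}
    (h : SL Γ y (a • s) (b • s)) (hle : a • s ≤ b • s) : SL Γ x (a • s) (b • s) := by
  have hin : ∀ {c d : Γ} (γ : Γ), SL Γ y (c • s) (d • s) → c • s ≤ γ • x → d • s ≤ γ • x := by
    intro c d γ h1 h2
    by_contra h3
    exact hx γ ⟨c, d, h1, h2, h3⟩
  refine ⟨⟨fun γ => ⟨fun h1 => h1.trans hle, fun h1 => ?_⟩,
    fun γ => ⟨fun ⟨r, h1, h2⟩ => ⟨r, h1.trans hle, h2⟩, fun ⟨r, h1, h2⟩ => ?_⟩,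
    fun γ δ => ⟨fun ⟨r, h1, h2⟩ => ⟨r, h1.trans hle, h2⟩, fun ⟨r, h1, h2, h3⟩ => ?_⟩⟩,
    fun γ => ⟨fun h1 => hin γ h h1, fun h1 => hle.trans h1⟩⟩
  · by_contra h2
    rcases cmp Γ h1 hle with h3 | h3
    · exact h2 h3
    · -- `κ • q ≤ γ • x ≤ q`
      have e : (b * a⁻¹) • (a • s) = b • s := by
        rw [← mul_smul, inv_mul_cancel_right]
      have h4 : SL Γ y (b • s) ((b * a⁻¹) • (b • s)) := by
        have := h.smul (b * a⁻¹)
        rwa [e] at this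
      have h5 : b • s ≤ (b * a⁻¹) • (b • s) := by
        have := (sle (γ := b * a⁻¹)).2 hle
        rwa [e] at this
      have h6 : (b * a⁻¹) • (b • s) ≤ γ • x := by
        rw [← mul_smul] at h4 ⊢
        exact hin γ (h.trans h4) h3
      have h7 : (b * a⁻¹) • (b • s) = b • s := le_antisymm (h6.trans h1) h5
      have h8 : b • s = a • s := by
        rw [← e] at h7
        have := MulAction.injective (b * a⁻¹) h7
        rw [e] at this
        exact this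
      exact h2 (h8 ▸ h1)
  · rcases cmp Γ h1 hle with h3 | h3
    · exact ⟨r, h3, h2⟩
    · exact ⟨_, le_rfl, h3.trans h2⟩
  · rcases cmp Γ h1 hle with h4 | h4
    · exact ⟨r, h4, h2, h3⟩
    · by_cases h5 : a • s ≤ δ • x
      · exact absurd (h1.trans (hin δ h h5)) h3
      · exact ⟨_, le_rfl, h4.trans h2, h5⟩

theorem sl_out {y s x : X} (hs : DD Γ y s) (hx : ∀ γ : Γ, ¬ IN Γ y s (γ • x)) {a b : Γ}
    (h : SL Γ y (a • s) (b • s)) : SL Γ x (a • s) (b • s) := by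
  rcases h.cmp (hs.smul a) le_rfl with h1 | h1
  · exact (sl_aux hx h.symm h1).symm
  · exact sl_aux hx h h1

end

theorem t_TL (h1 : S_EQV) (h2 : S_TYP) : S_TL := by
  intro Γ X _ _ _ _ y z x hx w hw
  obtain ⟨e1, e2, e3, e4, e5⟩ := h1 Γ X
  obtain ⟨t1, t2, t3, t4, t5, t6⟩ := h2 Γ X y z
  by_cases hI : ∃ s, DD Γ y s ∧ IN Γ y s z
  · obtain ⟨s, hs, hz⟩ := hI
    have hE := t1 s hs hz
    have hxn : ∀ γ : Γ, ¬ IN Γ y s (γ • x) := by
      intro γ h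
      rw [IN_smul] at h
      apply hx
      rw [hE]
      exact h
    rw [hE] at hw
    obtain ⟨a, b, k1, k2, k3⟩ := hz
    obtain ⟨a1, b1, l1, l2, l3⟩ := hw
    by_cases hD : DD Γ x s
    · exact Or.inr (Or.inr ⟨s, hD, ⟨a, b, sl_out hs hxn k1, k2, k3⟩,
        ⟨a1, b1, sl_out hs hxn l1, l2, l3⟩⟩)
    · refine Or.inr (Or.inl ⟨a1 * a⁻¹, a1 • s, ?_, l2, fun h => hD (DD_smul.1 h)⟩)
      have := (sle (γ := a1 * a⁻¹)).2 k2
      rwa [← mul_smul, inv_mul_cancel_right] at this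
  · by_cases hD : DD Γ y z
    · rw [t2 hD hI] at hw
      exact Or.inl hw
    · rw [t3 hD hI] at hw
      obtain ⟨γ, r, k1, k2, k3⟩ := hw
      by_cases hr : DD Γ x r
      · obtain ⟨δ, hδ⟩ := hr
        exact absurd ((e3 y z x δ).1 (Or.inr (Or.inl ⟨γ, r, k1, hδ, k3⟩))) hx
      · exact Or.inr (Or.inl ⟨γ, r, k1, k2, hr⟩)

section

variable {Γ X : Type} [Group Γ] [PartialOrder X] [MulAction Γ X] [Tr Γ X]

/-- One half of LU. -/
theorem lu_half (h1 : S_EQV) (h2 : S_TYP) (h3 : S_CUT) (h4 : S_CC) (h5 : S_M1)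
    {u z x v v' : X} (hx : x ∉ OB Γ u z) (hv : v ∈ OB Γ u z) (hv' : v' ∈ OB Γ u z)
    (hs : SL Γ u v v') :
    (∀ γ : Γ, γ • x ≤ v → γ • x ≤ v') ∧ (∀ γ : Γ, v ≤ γ • x → v' ≤ γ • x) ∧
    (∀ γ : Γ, (∃ r, r ≤ v ∧ r ≤ γ • x) → ∃ r, r ≤ v' ∧ r ≤ γ • x) ∧
    (∀ γ δ : Γ, (∃ r, r ≤ v ∧ r ≤ γ • x ∧ ¬ r ≤ δ • x) →
      ∃ r, r ≤ v' ∧ r ≤ γ • x ∧ ¬ r ≤ δ • x) := by
  obtain ⟨e1, e2, e3, e4, e5⟩ := h1 Γ X
  have hxn : ∀ γ : Γ, γ • x ∉ OB Γ u z := fun γ h => hx ((e3 u z x γ).1 h)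
  have hm := fun w hw => h5 Γ X u z v v' w hv hv' hs hw
  have ha : ∀ γ : Γ, γ • x ≤ v → γ • x ≤ v' := by
    intro γ h
    have hne : γ • x ≠ v := fun e => hxn γ (e ▸ hv)
    exact (((hm _ (hxn γ)).2).1 (lt_of_le_of_ne h hne)).le
  have hb : ∀ γ : Γ, v ≤ γ • x → v' ≤ γ • x := by
    intro γ h
    have hne : v ≠ γ • x := fun e => hxn γ (e ▸ hv)
    exact (((hm _ (hxn γ)).1).1 (lt_of_le_of_ne h hne)).le
  have hb' : ∀ γ : Γ, v' ≤ γ • x → v ≤ γ • x := by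
    intro γ h
    have hne : v' ≠ γ • x := fun e => hxn γ (e ▸ hv')
    exact (((hm _ (hxn γ)).1).2 (lt_of_le_of_ne h hne)).le
  -- the main point
  have key : ∀ (γ : Γ) (r : X), r ≤ v → r ≤ γ • x → ¬ r ≤ v' →
      r ∈ OB Γ u z ∧ DD Γ u r ∧ ∃ (s : X) (a b : Γ), DD Γ u s ∧
        OB Γ u z = {t | IN Γ u s t} ∧ SL Γ u (a • s) (b • s) ∧ a • s ≤ v' ∧ ¬ b • s ≤ v' ∧
        a • s ≤ r := by
    intro γ r k1 k2 k3
    have hrE : r ∈ OB Γ u z := by
      by_contra hr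
      have hne : r ≠ v := fun e => hr (e ▸ hv)
      exact k3 (((hm r hr).2).1 (lt_of_le_of_ne k1 hne)).le
    have hrD : DD Γ u r := by
      by_contra hr
      apply hxn γ
      rw [← e2 u z r hrE]
      exact Or.inr (Or.inl ⟨1, r, by rw [one_smul], k2, hr⟩)
    obtain ⟨s, hsD, hsv⟩ := h4 Γ X u v v' r (by rw [e2 u z v hv]; exact hv') hs hrD k1 k3
    have hE : OB Γ u z = {t | IN Γ u s t} := by
      rw [← e2 u z v hv]
      exact (h2 Γ X u v).1 s hsD hsv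
    have hsv' : IN Γ u s v' := by
      rw [hE] at hv'
      exact hv'
    obtain ⟨a, b, l1, l2, l3⟩ := hsv'
    refine ⟨hrE, hrD, s, a, b, hsD, hE, l1, l2, l3, ?_⟩
    have hcut : ∀ t, t ≤ v' → DD Γ u t → t ≤ v := by
      rcases (h3 Γ X u v v' hs.toRL).1 with h | h
      · exact absurd (h r k1 hrD) k3
      · exact h
    rcases cmp Γ (hcut _ l2 (hsD.smul a)) k1 with h | h
    · exact h
    · exact absurd (h.trans l2) k3
  refine ⟨ha, hb, ?_, ?_⟩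
  · rintro γ ⟨r, k1, k2⟩
    by_cases k3 : r ≤ v'
    · exact ⟨r, k3, k2⟩
    · obtain ⟨_, _, s, a, b, _, _, _, l2, _, l4⟩ := key γ r k1 k2 k3
      exact ⟨a • s, l2, l4.trans k2⟩
  · rintro γ δ ⟨r, k1, k2, k3⟩
    by_cases k4 : r ≤ v'
    · exact ⟨r, k4, k2, k3⟩
    · obtain ⟨hrE, hrD, s, a, b, hsD, hE, l1, l2, l3, l4⟩ := key γ r k1 k2 k4
      by_cases k5 : a • s ≤ δ • x
      · exfalso
        have hin : ∀ {c d : Γ} (ε : Γ), SL Γ u (c • s) (d • s) → c • s ≤ ε • x →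
            d • s ≤ ε • x := by
          intro c d ε m1 m2
          by_contra m3
          apply hxn ε
          rw [hE]
          exact ⟨c, d, m1, m2, m3⟩
        have q1 : b • s ≤ γ • x := hin γ l1 (l4.trans k2)
        have q2 : b • s ≤ δ • x := hin δ l1 k5
        have q3 : b • s ≤ r := by
          rcases cmp Γ q1 k2 with h | h
          · exact h
          · exact absurd (h.trans q2) k3
        have q4 : SL Γ u (b • s) r :=
          ((h3 Γ X u v v' hs.toRL).2 (b • s) (q3.trans k1) (hsD.smul b) l3).2 r k1 hrD k4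
        have hINr : IN Γ u s r := by
          rw [hE] at hrE
          exact hrE
        obtain ⟨c, d, m1, m2, m3⟩ := hINr
        have q5 : d • s ≤ γ • x := hin γ m1 (m2.trans k2)
        have q6 : r ≤ d • s := by
          rcases cmp Γ k2 q5 with h | h
          · exact h
          · exact absurd h m3
        have q7 : SL Γ u (c • s) r := m1.mid m2 q6
        have q8 : SL Γ u (a • s) (d • s) := ((l1.trans q4).trans q7.symm).trans m1
        exact k3 (q6.trans (hin δ q8 k5))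
      · exact ⟨a • s, l2, l4.trans k2, k5⟩

end

theorem t_LU (h1 : S_EQV) (h2 : S_TYP) (h3 : S_CUT) (h4 : S_CC) (h5 : S_M1) : S_LU := by
  intro Γ X _ _ _ _ u z x v v' hx hv hv' hs
  obtain ⟨a1, b1, c1, d1⟩ := lu_half h1 h2 h3 h4 h5 hx hv hv' hs
  obtain ⟨a2, b2, c2, d2⟩ := lu_half h1 h2 h3 h4 h5 hx hv' hv hs.symm
  exact ⟨⟨fun γ => ⟨a1 γ, a2 γ⟩, fun γ => ⟨c1 γ, c2 γ⟩, fun γ δ => ⟨d1 γ δ, d2 γ δ⟩⟩,
    fun γ => ⟨b1 γ, b2 γ⟩⟩

end Pool.Agent.Y41.TF
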